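import Mathlib

namespace Pool.Agent.H.MP_17ecd9_gt
open Finset MeasureTheory
open scoped symmDiff

theorem cube {ι κ : Type*} [Fintype ι] [Fintype κ] (m : κ → ℝ) (hm : ∀ σ, 0 ≤ m σ)
    (h1 : ∑ σ, m σ ≤ 1) (s : κ → ι → Bool) (d : ι → ι → ℝ)
    (hd : ∀ x y, d x y = ∑ σ, if s σ x ≠ s σ y then m σ else 0)
    (h0 : ∀ x y, d x y = 0 → x = y) (w : ι → ℝ) :
    (∑ x, w x) ^ 2 ≤ Real.exp 1 * ∑ x, ∑ y, w x * (Real.exp (-d x y) * w y) ∧
    (w ≠ 0 → 0 < ∑ x, ∑ y, w x * (Real.exp (-d x y) * w y)) := by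
  classical
  let e : κ → ι → ℝ := fun σ x => if s σ x then 1 else -1
  let a : κ → ℝ := fun σ => (1 + Real.exp (-m σ)) / 2
  let b : κ → ℝ := fun σ => (1 - Real.exp (-m σ)) / 2
  have ha : ∀ σ, 0 < a σ := fun σ => by simp only [a]; positivity
  have hb : ∀ σ, 0 ≤ b σ := fun σ => by
    have : Real.exp (-m σ) ≤ 1 := Real.exp_le_one_iff.2 (by linarith [hm σ])
    simp only [b]; linarith
  let p : Finset κ → ℝ := fun t => (∏ σ ∈ t, b σ) * ∏ σ ∈ tᶜ, a σ
  have hp : ∀ t, 0 ≤ p t := fun t =>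
    mul_nonneg (prod_nonneg fun σ _ => hb σ) (prod_nonneg fun σ _ => (ha σ).le)
  have Z : ∀ x y, Real.exp (-d x y) = ∑ t, p t * ((∏ σ ∈ t, e σ x) * ∏ σ ∈ t, e σ y) := by
    intro x y
    rw [hd, ← sum_neg_distrib, Real.exp_sum]
    have : ∀ σ, Real.exp (-(if s σ x ≠ s σ y then m σ else 0)) = b σ * (e σ x * e σ y) + a σ := by
      intro σ
      simp only [a, b, e]
      cases s σ x <;> cases s σ y <;> simp <;> ring
    simp only [this, Fintype.prod_add, prod_mul_distrib, p]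
    exact sum_congr rfl fun t _ => by ring
  have Q : ∑ x, ∑ y, w x * (Real.exp (-d x y) * w y) =
      ∑ t, p t * (∑ x, w x * ∏ σ ∈ t, e σ x) ^ 2 := by
    simp only [Z, sq, sum_mul_sum, mul_sum, sum_mul]
    rw [sum_comm]
    conv_rhs => rw [sum_comm]
    refine sum_congr rfl fun y _ => ?_
    rw [sum_comm]
    exact sum_congr rfl fun t _ => sum_congr rfl fun x _ => by ring
  have nn : ∀ t ∈ (univ : Finset (Finset κ)), 0 ≤ p t * (∑ x, w x * ∏ σ ∈ t, e σ x) ^ 2 :=
    fun t _ => mul_nonneg (hp t) (sq_nonneg _)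
  rw [Q]
  constructor
  · have h2 := single_le_sum nn (mem_univ ∅)
    simp only [prod_empty, mul_one] at h2
    have h3 : Real.exp (-1) ≤ p ∅ := by
      simp only [p, prod_empty, compl_empty, one_mul]
      refine le_trans (Real.exp_le_exp.2 (neg_le_neg h1)) ?_
      rw [← sum_neg_distrib, Real.exp_sum]
      refine prod_le_prod (fun σ _ => (Real.exp_pos _).le) fun σ _ => ?_
      have := hb σ
      simp only [a, b] at this ⊢
      linarith
    have h4 : Real.exp 1 * Real.exp (-1) = 1 := by rw [← Real.exp_add]; simp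
    calc (∑ x, w x) ^ 2 = Real.exp 1 * (Real.exp (-1) * (∑ x, w x) ^ 2) := by
          rw [← mul_assoc, h4, one_mul]
      _ ≤ _ := mul_le_mul_of_nonneg_left
          ((mul_le_mul_of_nonneg_right h3 (sq_nonneg _)).trans h2) (Real.exp_pos _).le
  · intro hw
    refine (sum_nonneg nn).lt_of_ne fun h => hw (funext fun x0 => ?_)
    have h2 := (sum_eq_zero_iff_of_nonneg nn).1 h.symm
    let P : Finset κ := univ.filter fun σ => 0 < m σ
    have h3 : ∀ t ∈ P.powerset, ∑ x, w x * ∏ σ ∈ t, e σ x = 0 := by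
      intro t ht
      have : 0 < p t := mul_pos (prod_pos fun σ hσ => by
        have h5 : 0 < m σ := (mem_filter.1 (mem_powerset.1 ht hσ)).2
        have : Real.exp (-m σ) < 1 := Real.exp_lt_one_iff.2 (by linarith)
        simp only [b]; linarith) (prod_pos fun σ _ => ha σ)
      exact pow_eq_zero_iff two_ne_zero |>.1 ((mul_eq_zero.1 (h2 t (mem_univ _))).resolve_left
        this.ne')
    have h4 : ∑ x, w x * ∏ σ ∈ P, (1 + e σ x0 * e σ x) = 0 := by
      simp only [prod_one_add, mul_sum, prod_mul_distrib]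
      rw [sum_comm]
      refine sum_eq_zero fun t ht => ?_
      have := congrArg (fun r => (∏ σ ∈ t, e σ x0) * r) (h3 t ht)
      simp only [mul_sum, mul_zero] at this
      rw [← this]
      exact sum_congr rfl fun x _ => by ring
    rw [sum_eq_single x0 (fun x _ hx => ?_) (by simp)] at h4
    · refine (mul_eq_zero.1 h4).resolve_right (prod_pos fun σ _ => ?_).ne'
      nlinarith [mul_self_nonneg (e σ x0)]
    · obtain ⟨σ, -, hσ⟩ := exists_ne_zero_of_sum_ne_zero (hd x x0 ▸ fun h => hx (h0 _ _ h))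
      have h5 : s σ x ≠ s σ x0 := fun h => hσ (by simp [h])
      rw [if_pos h5] at hσ
      refine mul_eq_zero_of_right _ (prod_eq_zero (i := σ)
        (mem_filter.2 ⟨mem_univ _, (hm σ).lt_of_ne' hσ⟩) ?_)
      simp only [e]
      revert h5
      cases s σ x <;> cases s σ x0 <;> simp

theorem sets {ι Ω : Type*} [Fintype ι] [MeasurableSpace Ω] (μ : Measure Ω)
    [IsProbabilityMeasure μ] (S : ι → Set Ω) (hS : ∀ x, MeasurableSet (S x)) (d : ι → ι → ℝ)
    (hd : ∀ x y, d x y = μ.real (S x ∆ S y)) (h0 : ∀ x y, d x y = 0 → x = y) (w : ι → ℝ) :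
    (∑ x, w x) ^ 2 ≤ Real.exp 1 * ∑ x, ∑ y, w x * (Real.exp (-d x y) * w y) ∧
    (w ≠ 0 → 0 < ∑ x, ∑ y, w x * (Real.exp (-d x y) * w y)) := by
  classical
  let g : Ω → ι → Bool := fun ω x => decide (ω ∈ S x)
  have hg : Measurable g := measurable_pi_iff.2 fun x => by
    refine measurable_to_bool ?_
    rw [show (fun ω => g ω x) ⁻¹' {true} = S x by ext ω; simp [g]]
    exact hS x
  have hm : ∀ B : Finset (ι → Bool), ∑ σ ∈ B, μ.real (g ⁻¹' {σ}) = μ.real (g ⁻¹' B) := fun B =>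
    sum_measureReal_preimage_singleton B fun σ _ => hg (MeasurableSet.singleton σ)
  refine cube (fun σ : ι → Bool => μ.real (g ⁻¹' {σ})) (fun _ => measureReal_nonneg) ?_
    (fun σ x => σ x) d (fun x y => ?_) h0 w
  · rw [hm]; exact measureReal_le_one
  · rw [← sum_filter, hm, hd]
    refine congrArg μ.real ?_
    ext ω
    simp [g, Set.mem_symmDiff]
    tauto

end Pool.Agent.H.MP_17ecd9_gt
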